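import Pool.Agent.Helper21.TR.Bad3

/-!
# Block FR-FC1: the logarithm of the semisimple part
-/

set_option autoImplicit false

open Module

namespace FR

open MTP

section
variable {K : Type*} [Field K] [CharZero K] [IsAlgClosed K] {V : Type*} [AddCommGroup V]
  [Module K V] [FiniteDimensional K V]

/-- FC1 -/
theorem exists_log {γ γ' : Module.End K V} (h' : γ' * γ = 1)
    (hroot : ∀ a b : K, γ.eigenspace a ≠ ⊥ → γ.eigenspace b ≠ ⊥ → ∀ n : ℕ, 0 < n →
      a ^ n = b ^ n → a = b)
    {L : Submodule K (Module.End K V)} (hL : ∀ x ∈ L, γ * x * γ' ∈ L)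
    {N : Module.End K V} {a0 q : K} (hN : LinearMap.range N ≤ γ.maxGenEigenspace a0)
    (hq : γ * N = q • (N * γ)) :
    ∃ h : Module.End K V, (∀ x ∈ L, h * x - x * h ∈ L) ∧
      ⨆ q : ℚ, h.eigenspace (q : K) = ⊤ ∧ (∃ σ : K, h * N = σ • N) ∧ (∃ τ : K, N * h = τ • N) ∧
      (∀ X : Module.End K V, X * γ = γ * X → X * h = h * X) ∧
      ∀ W : Submodule K V, (∀ v ∈ W, γ v ∈ W) →
        {a : K | finrank K ↥(W ⊓ LinearMap.ker N ⊓ γ.maxGenEigenspace a) -
          finrank K ↥(W.map N ⊓ γ.maxGenEigenspace a) ≠ 0}.ncard =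
        {a : K | finrank K ↥(W ⊓ LinearMap.ker N ⊓ h.eigenspace a) -
          finrank K ↥(W.map N ⊓ h.eigenspace a) ≠ 0}.ncard := by
  classical
  obtain ⟨Λ, hΛ⟩ := Pool.Agent.Helper54.MT.exists_finset γ
  have hinj : Function.Injective γ := by
    intro x y hxy
    have h1 := congrArg γ' hxy
    have h2 : ∀ x, γ' (γ x) = x := fun x => LinearMap.congr_fun h' x
    rwa [h2, h2] at h1
  have hne0 : ∀ a, γ.eigenspace a ≠ ⊥ → a ≠ 0 := by
    rintro _ ha rfl
    apply ha
    rw [eq_bot_iff]
    intro w hw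
    rw [Module.End.mem_eigenspace_iff, zero_smul] at hw
    exact (Submodule.mem_bot K).mpr (hinj (by rw [hw, map_zero]))
  obtain ⟨v, hv, hsep⟩ := TR.exists_sep Λ (fun a ha => hne0 a ((hΛ a).mpr ha))
    (fun a ha b hb => hroot a b ((hΛ a).mpr ha) ((hΛ b).mpr hb))
  have hv1 : v 1 = 0 := by
    have h1 := hv 1 1 one_ne_zero one_ne_zero
    rw [mul_one] at h1
    linarith
  obtain ⟨h, b, lam, -, hnorm, hb, hrep, hlam, hh0⟩ := TR.exists_slope_gen
    (ω := (0 : LinearMap.BilinForm K V)) h' (c := 1) (by intro u w; simp) hv hL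
  have hh : ∀ i, h (b i) = ((v (lam i) : ℚ) : K) • b i := by
    intro i
    rw [hh0 i, hv1, zero_div, sub_zero]
  have hgen : ∀ a, γ.maxGenEigenspace a ≠ ⊥ → a ∈ Λ := by
    intro a ha
    rw [← hΛ]
    have h1 : γ.HasUnifEigenvalue a ⊤ := ha
    have h2 : γ.HasUnifEigenvalue a 1 := h1.lt zero_lt_one
    exact h2
  have hlamΛ : ∀ i, lam i ∈ Λ := by
    intro i
    apply hgen
    intro h0
    have := hb i
    rw [h0, Submodule.mem_bot] at this
    exact b.ne_zero i this
  have hexp : ∀ w : V, w = ∑ i, b.repr w i • b i := fun w => (b.sum_repr w).symm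
  have hcoord : ∀ (w : V) (i : Fin (finrank K V)),
      b.repr (h w) i = ((v (lam i) : ℚ) : K) * b.repr w i := by
    intro w i
    conv_lhs => rw [hexp w]
    rw [map_sum, map_sum, Finsupp.finsetSum_apply, Finset.sum_eq_single i]
    · rw [map_smul, hh, map_smul, map_smul, Finsupp.smul_apply, Finsupp.smul_apply,
        b.repr_self, Finsupp.single_eq_same, smul_eq_mul, smul_eq_mul, mul_one, mul_comm]
    · intro j _ hj
      rw [map_smul, hh, map_smul, map_smul, Finsupp.smul_apply, Finsupp.smul_apply,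
        b.repr_self, Finsupp.single_eq_of_ne (Ne.symm hj), smul_zero, smul_zero]
    · intro hcon; exact absurd (Finset.mem_univ i) hcon
  have heig : ∀ a ∈ Λ, h.eigenspace ((v a : ℚ) : K) = γ.maxGenEigenspace a := by
    intro a ha
    apply le_antisymm
    · intro w hw
      rw [Module.End.mem_eigenspace_iff] at hw
      rw [hexp w]
      apply Submodule.sum_mem
      intro i _
      by_cases hi : b.repr w i = 0
      · rw [hi, zero_smul]; exact Submodule.zero_mem _
      · apply Submodule.smul_mem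
        have h1 := hcoord w i
        rw [hw, map_smul, Finsupp.smul_apply, smul_eq_mul] at h1
        have h2 := mul_right_cancel₀ hi h1
        have h3 : v a = v (lam i) := Rat.cast_injective h2
        rw [hsep a ha (lam i) (hlamΛ i) h3]
        exact hb i
    · intro w hw
      rw [Module.End.mem_eigenspace_iff]
      conv_lhs => rw [hexp w]
      conv_rhs => rw [hexp w]
      rw [map_sum, Finset.smul_sum]
      apply Finset.sum_congr rfl
      intro i _
      by_cases hi : b.repr w i = 0
      · rw [hi]; simp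
      · rw [map_smul, hh, hrep a w hw i hi, smul_comm]
  have hall : ∀ q : K, h.eigenspace q ≠ ⊥ → ∃ a ∈ Λ, ((v a : ℚ) : K) = q := by
    intro q hq
    obtain ⟨w, hw, hw0⟩ := Submodule.exists_mem_ne_zero_of_ne_bot hq
    rw [Module.End.mem_eigenspace_iff] at hw
    obtain ⟨i, hi⟩ : ∃ i, b.repr w i ≠ 0 := by
      by_contra hcon
      push Not at hcon
      apply hw0
      rw [hexp w]
      apply Finset.sum_eq_zero
      intro i _
      rw [hcon i, zero_smul]
    have h1 := hcoord w i
    rw [hw, map_smul, Finsupp.smul_apply, smul_eq_mul] at h1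
    exact ⟨lam i, hlamΛ i, (mul_right_cancel₀ hi h1).symm⟩
  -- `N` on the basis
  have hshift : ∀ (a : K) (w : V), w ∈ γ.maxGenEigenspace a → N w ∈ γ.maxGenEigenspace (q * a) := by
    intro a w hw
    rw [Module.End.mem_maxGenEigenspace] at hw ⊢
    obtain ⟨k, hk⟩ := hw
    refine ⟨k, ?_⟩
    have h1 : (γ - (q * a) • 1) * N = (q • N) * (γ - a • 1) := by
      have e1 : (q • N) * γ = q • (N * γ) := smul_mul_assoc _ _ _
      have e2 : ((q * a) • (1 : Module.End K V)) * N = (q * a) • N := by
        rw [smul_mul_assoc, one_mul]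
      have e3 : (q • N) * (a • (1 : Module.End K V)) = (q * a) • N := by
        rw [mul_smul_comm, mul_one, smul_smul, mul_comm a q]
      rw [sub_mul, mul_sub, hq, e1, e2, e3]
    have h2 : ∀ k : ℕ, (γ - (q * a) • 1) ^ k * N = (q ^ k • N) * (γ - a • 1) ^ k := by
      intro k
      induction k with
      | zero => simp
      | succ k ih =>
        rw [pow_succ', mul_assoc, ih, smul_mul_assoc, mul_smul_comm, ← mul_assoc, h1,
          pow_succ' (γ - a • 1), smul_mul_assoc, smul_mul_assoc, smul_mul_assoc, smul_smul,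
          ← pow_succ, mul_assoc]
    have h3 : ((γ - (q * a) • 1) ^ k) (N w) = ((γ - (q * a) • 1) ^ k * N) w := rfl
    rw [h3, h2]
    change (q ^ k • N) (((γ - a • 1) ^ k) w) = 0
    rw [hk, map_zero]
  have hbN : ∀ i, N (b i) ≠ 0 → q * lam i = a0 := by
    intro i hi
    by_contra hne
    have h1 := hshift (lam i) (b i) (hb i)
    have h2 : N (b i) ∈ γ.maxGenEigenspace a0 := hN ⟨b i, rfl⟩
    have h3 : Disjoint (γ.maxGenEigenspace (q * lam i)) (γ.maxGenEigenspace a0) :=
      Module.End.disjoint_genEigenspace γ hne _ _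
    exact hi (Submodule.disjoint_def.1 h3 _ h1 h2)
  have hN0 : ∀ w, (∀ i, N (b i) = 0) → N w = 0 := by
    intro w hw
    rw [hexp w, map_sum]
    exact Finset.sum_eq_zero fun i _ => by rw [map_smul, hw i, smul_zero]
  refine ⟨h, hnorm, ?_, ?_, ?_, ?_, ?_⟩
  · rw [eq_top_iff, ← b.span_eq, Submodule.span_le]
    rintro _ ⟨i, rfl⟩
    apply Submodule.mem_iSup_of_mem (v (lam i))
    rw [Module.End.mem_eigenspace_iff, hh]
  · by_cases hNz : N = 0
    · exact ⟨0, by rw [hNz, mul_zero, smul_zero]⟩
    have ha0 : a0 ∈ Λ := by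
      apply hgen
      intro h0
      rw [h0, le_bot_iff, LinearMap.range_eq_bot] at hN
      exact hNz hN
    refine ⟨((v a0 : ℚ) : K), ?_⟩
    ext w
    have h1 : N w ∈ h.eigenspace ((v a0 : ℚ) : K) := by
      rw [heig a0 ha0]
      exact hN ⟨w, rfl⟩
    exact Module.End.mem_eigenspace_iff.mp h1
  · by_cases hq0 : q = 0
    · have hNz : N = 0 := by
        have h1 : γ' * (γ * N) = 0 := by rw [hq, hq0, zero_smul, mul_zero]
        rwa [← mul_assoc, h', one_mul] at h1
      exact ⟨0, by rw [hNz, zero_mul, smul_zero]⟩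
    refine ⟨((v (a0 / q) : ℚ) : K), ?_⟩
    refine b.ext fun i => ?_
    change N (h (b i)) = ((v (a0 / q) : ℚ) : K) • N (b i)
    rw [hh, map_smul]
    by_cases hi : N (b i) = 0
    · rw [hi, smul_zero, smul_zero]
    · have h1 : lam i = a0 / q := by
        rw [eq_div_iff hq0, mul_comm]
        exact hbN i hi
      rw [h1]
  · intro X hX
    refine b.ext fun i => ?_
    change X (h (b i)) = h (X (b i))
    have h1 : X (b i) ∈ γ.maxGenEigenspace (lam i) := by
      have h2 := hb i
      rw [Module.End.mem_maxGenEigenspace] at h2 ⊢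
      obtain ⟨k, hk⟩ := h2
      refine ⟨k, ?_⟩
      have h3 : Commute X (γ - lam i • 1) := by
        refine Commute.sub_right hX ?_
        exact (Commute.one_right X).smul_right _
      have h4 : (γ - lam i • 1) ^ k * X = X * (γ - lam i • 1) ^ k := (h3.pow_right k).eq.symm
      have h5 : ((γ - lam i • 1) ^ k) (X (b i)) = ((γ - lam i • 1) ^ k * X) (b i) := rfl
      rw [h5, h4]
      change X (((γ - lam i • 1) ^ k) (b i)) = 0
      rw [hk, map_zero]
    rw [← heig _ (hlamΛ i)] at h1
    rw [Module.End.mem_eigenspace_iff.1 h1, hh, map_smul]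
  · intro W _
    have h1 : {a : K | finrank K ↥(W ⊓ LinearMap.ker N ⊓ h.eigenspace a) -
          finrank K ↥(W.map N ⊓ h.eigenspace a) ≠ 0} = (fun a => ((v a : ℚ) : K)) ''
        {a : K | finrank K ↥(W ⊓ LinearMap.ker N ⊓ γ.maxGenEigenspace a) -
          finrank K ↥(W.map N ⊓ γ.maxGenEigenspace a) ≠ 0} := by
      ext q'
      constructor
      · intro hq'
        obtain ⟨a, ha, rfl⟩ := hall q' (by
          intro h0
          apply hq'
          rw [h0, inf_bot_eq, finrank_bot, Nat.zero_sub])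
        refine ⟨a, ?_, rfl⟩
        rw [Set.mem_ofPred_eq] at hq' ⊢
        rwa [heig a ha] at hq'
      · rintro ⟨a, ha, rfl⟩
        have haΛ : a ∈ Λ := by
          apply hgen
          intro h0
          apply ha
          rw [h0, inf_bot_eq, finrank_bot, Nat.zero_sub]
        rw [Set.mem_ofPred_eq] at ha ⊢
        rwa [heig a haΛ]
    rw [h1]
    refine (Set.InjOn.ncard_image ?_).symm
    intro a ha b' hb' hab
    have hmem : ∀ a, a ∈ {a : K | finrank K ↥(W ⊓ LinearMap.ker N ⊓ γ.maxGenEigenspace a) -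
          finrank K ↥(W.map N ⊓ γ.maxGenEigenspace a) ≠ 0} → a ∈ Λ := by
      intro a ha
      apply hgen
      intro h0
      apply ha
      rw [h0, inf_bot_eq, finrank_bot, Nat.zero_sub]
    exact hsep a (hmem a ha) b' (hmem b' hb') (Rat.cast_injective hab)

end

end FR
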